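import Mathlib
import Pool.Agent.Lib.MP_bf61d2_nt.Trim.Analytic
import Pool.Agent.Lib.MP_bf61d2_nt.Trim.Artin.Defs63
import Pool.Agent.Lib.MP_bf61d2_nt.Trim.Artin.L.BADL73
import Pool.Agent.Lib.MP_bf61d2_nt.Trim.Artin.L.LELOG36
import Pool.Agent.Lib.MP_bf61d2_nt.Trim.Artin.L.PSL88
import Pool.Agent.Lib.MP_bf61d2_nt.Trim.Artin.L.SLTW73
import Pool.Agent.Lib.MP_bf61d2_nt.Trim.Artin.L.StmtsL63
import Pool.Agent.Lib.MP_bf61d2_nt.Trim.Artin.R.DefsR
import Pool.Agent.Lib.MP_bf61d2_nt.Trim.Artin.R.LOGR84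
import Pool.Agent.Lib.MP_bf61d2_nt.Trim.Artin.T.DefsT84
import Pool.Agent.Lib.MP_bf61d2_nt.Trim.Artin.T.J35x40
import Pool.Agent.Lib.MP_bf61d2_nt.Trim.Artin.T.LT73
import Pool.Agent.Lib.MP_bf61d2_nt.Trim.Artin.T.LTX84
import Pool.Agent.Lib.MP_bf61d2_nt.Trim.Artin.T7
import Pool.Agent.Lib.MP_bf61d2_nt.Trim.Artin.U.TWV73
import Pool.Agent.Lib.MP_bf61d2_nt.Trim.Joint.Main
import Pool.Agent.Lib.MP_bf61d2_nt.Trim.LocalCurve
import Pool.Agent.Lib.MP_bf61d2_nt.Trim.Places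
import Pool.Agent.Lib.MP_bf61d2_nt.Trim.PrimeSum
import Pool.Agent.Lib.MP_bf61d2_nt.Trim.Structure
import Pool.Agent.Lib.MP_bf61d2_nt.Trim.TwistLocal

set_option autoImplicit false

/-!
UNIF (MP_bf61d2_nt): the modules PSL, LELOG, SCTWL with constants which depend only on the degree
of the number field.
-/

namespace NumberField
end NumberField

namespace Pool.Agent.Lib.MP_bf61d2_nt.Perm
end Pool.Agent.Lib.MP_bf61d2_nt.Perm

namespace Pool.Agent.Lib.MP_bf61d2_nt.Zeta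
end Pool.Agent.Lib.MP_bf61d2_nt.Zeta

namespace Pool.Agent.Lib.MP_bf61d2_nt.Artin.Ray.PSL88
end Pool.Agent.Lib.MP_bf61d2_nt.Artin.Ray.PSL88

namespace Pool.Agent.Lib.MP_bf61d2_nt.Artin.Ray.LELOG36
end Pool.Agent.Lib.MP_bf61d2_nt.Artin.Ray.LELOG36

namespace Pool.Agent.Lib.MP_bf61d2_nt.Artin.Ray

open NumberField IsDedekindDomain Filter Topology Module

open Pool.Agent.Lib.MP_bf61d2_nt.Perm

open Pool.Agent.Lib.MP_bf61d2_nt.Zeta

universe u

section sums

variable (K : Type u) [Field K] [NumberField K]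

/-- Sums over the places are bounded by the degree times a sum over the integers. -/
theorem tsum_pr_le36 {h : ℕ → ℝ} (h0 : ∀ n, 0 ≤ h n) (hs : Summable h) :
    ∑' v : HeightOneSpectrum (𝓞 K), h (pr v) ≤ finrank ℚ K * ∑' n, h n :=
  (summable_pr h0 hs).tsum_le_of_sum_le fun S => sum_pr_le h0 hs S

/-- The sum of `p ^ (-5/4)`. -/
noncomputable def Z36 : ℝ := ∑' n : ℕ, (n : ℝ) ^ (-(5 / 4) : ℝ)

lemma summable_Z36 : Summable fun n : ℕ => (n : ℝ) ^ (-(5 / 4) : ℝ) :=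
  Real.summable_nat_rpow.mpr (by norm_num)

lemma Z36_nonneg : 0 ≤ Z36 := tsum_nonneg fun n => by positivity

lemma tsum_pr_le_Z36 : ∑' v : HeightOneSpectrum (𝓞 K), (pr v : ℝ) ^ (-(5 / 4) : ℝ) ≤
    finrank ℚ K * Z36 :=
  tsum_pr_le36 K (h := fun n : ℕ => (n : ℝ) ^ (-(5 / 4) : ℝ)) (fun n => by positivity)
    summable_Z36

variable {K} in
lemma wp_log_le36 (v : HeightOneSpectrum (𝓞 K)) :
    wp (3 / 2) v * Real.log (nm v) ≤ 4 * (pr v : ℝ) ^ (-(5 / 4) : ℝ) := by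
  have hq : (0 : ℝ) < nm v := nm_pos' v
  have hp : (0 : ℝ) < pr v := by exact_mod_cast (pr_prime v).pos
  have h1 := LELOG36.log_le_four v
  have h2 : (pr v : ℝ) ≤ nm v := by exact_mod_cast pr_le_nm v
  calc wp (3 / 2) v * Real.log (nm v) ≤ wp (3 / 2) v * (4 * (nm v : ℝ) ^ (1 / 4 : ℝ)) :=
        mul_le_mul_of_nonneg_left h1 (wp_pos _ v).le
    _ = 4 * (nm v : ℝ) ^ (-(5 / 4) : ℝ) := by
        have e : (nm v : ℝ) ^ (-(5 / 4) : ℝ) =
            (nm v : ℝ) ^ (-(3 / 2) : ℝ) * (nm v : ℝ) ^ (1 / 4 : ℝ) := by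
          rw [← Real.rpow_add hq]
          norm_num
        rw [e, wp]
        ring
    _ ≤ 4 * (pr v : ℝ) ^ (-(5 / 4) : ℝ) :=
        mul_le_mul_of_nonneg_left (Real.rpow_le_rpow_of_nonpos hp h2 (by norm_num)) (by norm_num)

variable {K} in
lemma wl_one_le36 (v : HeightOneSpectrum (𝓞 K)) :
    wl 1 v ≤ 4 * (pr v : ℝ) ^ (-(5 / 4) : ℝ) := by
  refine le_trans ?_ (wp_log_le36 v)
  rw [wl]
  refine mul_le_mul_of_nonneg_right ?_ (log_nm_pos v).le
  exact Real.rpow_le_rpow_of_exponent_le (by exact_mod_cast (one_lt_nm v).le) (by norm_num)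

variable {K} in
lemma bd_le36 (v : HeightOneSpectrum (𝓞 K)) :
    LELOG36.bd v ≤ 1000 * (pr v : ℝ) ^ (-(5 / 4) : ℝ) := by
  rw [LELOG36.bd]
  have hp : (1 : ℝ) ≤ pr v := by exact_mod_cast (pr_prime v).one_lt.le
  exact mul_le_mul_of_nonneg_left
    (Real.rpow_le_rpow_of_exponent_le hp (by norm_num)) (by norm_num)

variable {K} in
lemma summable_pr36 : Summable fun v : HeightOneSpectrum (𝓞 K) => (pr v : ℝ) ^ (-(5 / 4) : ℝ) :=
  summable_pr (h := fun n : ℕ => (n : ℝ) ^ (-(5 / 4) : ℝ)) (fun n => by positivity) summable_Z36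

lemma tsum_wl_le36 : ∑' v : HeightOneSpectrum (𝓞 K), wl 1 v ≤ 4 * (finrank ℚ K * Z36) := by
  refine ((summable_wl (K := K) one_pos).tsum_le_tsum wl_one_le36
    (summable_pr36.mul_left 4)).trans ?_
  rw [tsum_mul_left]
  exact mul_le_mul_of_nonneg_left (tsum_pr_le_Z36 K) (by norm_num)

lemma tsum_bd_le36 : ∑' v : HeightOneSpectrum (𝓞 K), LELOG36.bd v ≤
    1000 * (finrank ℚ K * Z36) := by
  refine (LELOG36.summable_bd.tsum_le_tsum bd_le36 (summable_pr36.mul_left 1000)).trans ?_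
  rw [tsum_mul_left]
  exact mul_le_mul_of_nonneg_left (tsum_pr_le_Z36 K) (by norm_num)

lemma tsum_wp_le36 : ∑' v : HeightOneSpectrum (𝓞 K), 4 * (wp (3 / 2) v * Real.log (nm v)) ≤
    16 * (finrank ℚ K * Z36) := by
  rw [tsum_mul_left]
  have h1 := (summable_wl73 (K := K) (σ := 3 / 2) (by norm_num)).tsum_le_tsum wp_log_le36
    (summable_pr36.mul_left 4)
  rw [tsum_mul_left] at h1
  have h2 := tsum_pr_le_Z36 K
  linarith

end sums

open PSL88 in
/-- PSL with an explicit constant. -/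
theorem psl_cst36 (K : Type u) [Field K] [NumberField K] {A : ℝ}
    (hA : 2 * ∑' v : HeightOneSpectrum (𝓞 K), wl 1 v ≤ A) :
    ∀ ψ : Ideal (𝓞 K) →*₀ ℂ, (∀ I, ‖ψ I‖ ≤ 1) →
      ∀ s : ℂ, 1 < s.re → LI (ψ : Ideal (𝓞 K) → ℂ) s ≠ 0 ∧
        DifferentiableAt ℂ (LI (ψ : Ideal (𝓞 K) → ℂ)) s ∧
        ‖logDeriv (LI (ψ : Ideal (𝓞 K) → ℂ)) s + PSL ψ (s.re - 1) s.im‖ ≤ A := by
  have hw1 := summable_wl (K := K) (x := 1) one_pos
  intro ψ hψ s hs
  have hne : LI (ψ : Ideal (𝓞 K) → ℂ) s ≠ 0 := by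
    rw [← exp_eq hψ hs]
    exact Complex.exp_ne_zero _
  have hd := hasDerivAt_LI hψ hs
  refine ⟨hne, hd.differentiableAt, ?_⟩
  have e0 : PSL ψ (s.re - 1) s.im =
      ∑' v : HeightOneSpectrum (𝓞 K), (Real.log (nm v) : ℂ) * z ψ v s := by
    rw [PSL, WL]
    exact tsum_congr fun v => term_eq (ψ := ψ) v s
  rw [logDeriv_apply, hd.deriv, mul_div_cancel_left₀ _ hne, e0]
  have hs1 : Summable fun v : HeightOneSpectrum (𝓞 K) => dz ψ v s := by
    obtain ⟨σ, h1, h2⟩ := exists_between hs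
    exact Summable.of_norm_bounded ((summable_wl (by linarith : 0 < σ - 1)).mul_left 2)
      fun v => norm_dz_le hψ v h1 h2
  have hs2 : Summable fun v : HeightOneSpectrum (𝓞 K) => (Real.log (nm v) : ℂ) * z ψ v s := by
    refine Summable.of_norm_bounded (summable_wl (by linarith : 0 < s.re - 1)) fun v => ?_
    rw [norm_mul, Complex.norm_real, Real.norm_eq_abs, abs_of_pos (log_nm_pos v), wl,
      add_sub_cancel, mul_comm]
    exact mul_le_mul_of_nonneg_right (norm_z_le hψ v hs) (log_nm_pos v).le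
  rw [← hs1.tsum_add hs2]
  refine (tsum_of_norm_bounded (hw1.hasSum.mul_left 2) fun v => ?_).trans hA
  have hne1 : 1 - z ψ v s ≠ 0 := Complex.slitPlane_ne_zero (slit hψ v hs)
  have e : dz ψ v s + (Real.log (nm v) : ℂ) * z ψ v s =
      -((Real.log (nm v) : ℂ) * (z ψ v s * z ψ v s * (1 - z ψ v s)⁻¹)) := by
    rw [dz]
    field_simp
    ring
  have hq : (0 : ℝ) < nm v := nm_pos' v
  have hz : ‖z ψ v s‖ ≤ (nm v : ℝ) ^ (-1 : ℝ) := (norm_z_le hψ v hs).trans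
    (Real.rpow_le_rpow_of_exponent_le (by exact_mod_cast (one_lt_nm v).le) (by linarith))
  rw [e, norm_neg, norm_mul, norm_mul, norm_mul, Complex.norm_real, Real.norm_eq_abs,
    abs_of_pos (log_nm_pos v), wl, wp]
  have e2 : (nm v : ℝ) ^ (-(1 + 1) : ℝ) = (nm v : ℝ) ^ (-1 : ℝ) * (nm v : ℝ) ^ (-1 : ℝ) := by
    rw [← Real.rpow_add hq]
    norm_num
  rw [e2]
  have hl := (log_nm_pos v).le
  have hp : 0 ≤ (nm v : ℝ) ^ (-1 : ℝ) := Real.rpow_nonneg hq.le _
  calc Real.log (nm v) * (‖z ψ v s‖ * ‖z ψ v s‖ * ‖(1 - z ψ v s)⁻¹‖) ≤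
        Real.log (nm v) * ((nm v : ℝ) ^ (-1 : ℝ) * (nm v : ℝ) ^ (-1 : ℝ) * 2) := by
        refine mul_le_mul_of_nonneg_left ?_ hl
        refine mul_le_mul ?_ (norm_inv_le hψ v hs) (norm_nonneg _) (mul_nonneg hp hp)
        exact mul_le_mul hz hz (norm_nonneg _) hp
    _ = _ := by ring

open LELOG36 in
/-- LELOG with an explicit constant. -/
theorem lelog_cst36 (K : Type u) [Field K] [NumberField K] {A : ℝ}
    (hA : ∑' v : HeightOneSpectrum (𝓞 K), bd v ≤ A) :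
    ∀ (E : WeierstrassCurve K)
      (f : HeightOneSpectrum (𝓞 K) → ℂ), (∀ v, ‖f v‖ ≤ 1) → ∀ δ t : ℝ, 0 < δ →
        LE E f ((3 / 2 + δ : ℝ) + t * Complex.I) ≠ 0 ∧
        DifferentiableAt ℂ (LE E f) ((3 / 2 + δ : ℝ) + t * Complex.I) ∧
        ‖logDeriv (LE E f) ((3 / 2 + δ : ℝ) + t * Complex.I) +
          CRL (fun v => cc E v) f δ t‖ ≤ A := by
  intro E f hf δ t hδ
  set s : ℂ := ((3 / 2 + δ : ℝ) : ℂ) + t * Complex.I with hs
  have hre : s.re = 3 / 2 + δ := by rw [hs]; simp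
  have h1 : 3 / 2 < s.re := by rw [hre]; linarith
  set F : HeightOneSpectrum (𝓞 K) → ℂ → ℂ :=
    fun v s => -Complex.log (1 - LTX84.zw E v (f v) s) with hF
  -- the open half plane
  set σ₀ : ℝ := 3 / 2 + δ / 2 with hσ₀
  set U : Set ℂ := {s : ℂ | σ₀ < s.re} with hU
  have hUo : IsOpen U := isOpen_lt continuous_const Complex.continuous_re
  have hsU : s ∈ U := by
    change σ₀ < s.re
    rw [hre, hσ₀]
    linarith
  have hUre : ∀ w ∈ U, 3 / 2 ≤ w.re := fun w hw => by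
    have : σ₀ < w.re := hw
    linarith
  have hu : Summable fun v : HeightOneSpectrum (𝓞 K) => 14 * xi E v σ₀ :=
    (summable_xi E (by rw [hσ₀]; linarith)).mul_left 14
  have hFd : ∀ v, DifferentiableOn ℂ (F v) U := fun v w hw =>
    (hasDerivAt_lam E v (hf v) (hUre w hw)).differentiableAt.differentiableWithinAt
  have hFle : ∀ v w, w ∈ U → ‖F v w‖ ≤ 14 * xi E v σ₀ := by
    intro v w hw
    refine (LTX84.norm_lam_le E v (hf v) (hUre w hw)).trans ?_
    refine mul_le_mul_of_nonneg_left (xi_anti E v ?_) (by norm_num)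
    exact (show σ₀ < w.re from hw).le
  have hLd : DifferentiableAt ℂ (fun w => ∑' v, F v w) s :=
    (Complex.differentiableOn_tsum_of_summable_norm hu hFd hUo hFle).differentiableAt
      (hUo.mem_nhds hsU)
  have hder := Complex.hasSum_deriv_of_summable_norm hu hFd hUo hFle hsU
  have heq : LE E f =ᶠ[𝓝 s] fun w => Complex.exp (∑' v, F v w) := by
    filter_upwards [hUo.mem_nhds hsU] with w hw
    exact (LOGR84.hasProd E hf (s := w) (by
      have : σ₀ < w.re := hw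
      linarith)).tprod_eq
  have hexp : HasDerivAt (fun w => Complex.exp (∑' v, F v w))
      (Complex.exp (∑' v, F v s) * deriv (fun w => ∑' v, F v w) s) s :=
    hLd.hasDerivAt.cexp
  have hLE : HasDerivAt (LE E f)
      (Complex.exp (∑' v, F v s) * deriv (fun w => ∑' v, F v w) s) s :=
    hexp.congr_of_eventuallyEq heq
  have hval : LE E f s = Complex.exp (∑' v, F v s) := heq.self_of_nhds
  have hld : logDeriv (LE E f) s = deriv (fun w => ∑' v, F v w) s := by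
    rw [logDeriv_apply, hLE.deriv, hval]
    exact mul_div_cancel_left₀ _ (Complex.exp_ne_zero _)
  refine ⟨by rw [hval]; exact Complex.exp_ne_zero _, hLE.differentiableAt, ?_⟩
  rw [hld]
  -- the sum of the derivatives
  have hder2 : HasSum (fun v => -(((Real.log (nm v) : ℝ) : ℂ) *
      (nw E v (f v) s / (1 - LTX84.zw E v (f v) s)))) (deriv (fun w => ∑' v, F v w) s) := by
    refine hder.congr_fun ?_ |> fun h => h
    intro v
    exact ((hasDerivAt_lam E v (hf v) h1.le).deriv).symm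
  have hterm : ∀ v : HeightOneSpectrum (𝓞 K),
      (wl δ v : ℂ) * ((cc E v : ℂ) * (f v * ph t (nm v))) =
        ((Real.log (nm v) : ℝ) : ℂ) * (cc E v * (f v * (nm v : ℂ) ^ (-(s - 1 / 2)))) := by
    intro v
    rw [hs, cpow_eq_ph, wl]
    push_cast
    ring
  have hs2 : Summable fun v : HeightOneSpectrum (𝓞 K) =>
      (wl δ v : ℂ) * ((cc E v : ℂ) * (f v * ph t (nm v))) := by
    refine Summable.of_norm_bounded ((summable_wl (K := K) hδ).mul_left 2) fun v => ?_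
    rw [norm_mul, norm_mul, norm_mul, norm_ph, mul_one, Complex.norm_real, Complex.norm_real,
      Real.norm_eq_abs, Real.norm_eq_abs, abs_of_nonneg (wl_nonneg _ v)]
    have h3 : |cc E v| * ‖f v‖ ≤ 2 * 1 :=
      mul_le_mul (abs_cc_le E v) (hf v) (norm_nonneg _) (by norm_num)
    have := wl_nonneg δ v
    nlinarith
  rw [CRL, WL, ← hder2.tsum_eq, ← hder2.summable.tsum_add hs2]
  refine (tsum_of_norm_bounded summable_bd.hasSum fun v => ?_).trans hA
  rw [hterm v]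
  have e : -(((Real.log (nm v) : ℝ) : ℂ) * (nw E v (f v) s / (1 - LTX84.zw E v (f v) s))) +
      ((Real.log (nm v) : ℝ) : ℂ) * (cc E v * (f v * (nm v : ℂ) ^ (-(s - 1 / 2)))) =
      -(((Real.log (nm v) : ℝ) : ℂ) * (nw E v (f v) s / (1 - LTX84.zw E v (f v) s) -
        cc E v * (f v * (nm v : ℂ) ^ (-(s - 1 / 2))))) := by ring
  rw [e, norm_neg, norm_mul, Complex.norm_real, Real.norm_eq_abs,
    abs_of_nonneg (log_nm_pos v).le]
  exact local_le E v (hf v) h1.le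

/-- SCTWL with an explicit constant, in the form of `sl_tw73`. -/
theorem sl_cst36 (K : Type u) [Field K] [NumberField K] {A : ℝ}
    (hA : 4 * (finrank ℤ (𝓞 K) : ℝ) +
      ∑' v : HeightOneSpectrum (𝓞 K), 4 * (wp (3 / 2) v * Real.log (nm v)) ≤ A) :
    ∀ (E : WeierstrassCurve K) (d : ℕ), 0 < d → ∀ δ : ℝ, 0 < δ →
    ∀ f : HeightOneSpectrum (𝓞 K) → ℂ, (∀ v, ‖f v‖ ≤ 1) →
      ‖∑' v : HeightOneSpectrum (𝓞 K), ((wp (1 + δ) v * Real.log (nm v) : ℝ) : ℂ) *
          ((cc (qt E (d : K)) v : ℂ) * f v) -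
        ∑' v : HeightOneSpectrum (𝓞 K), ((wp (1 + δ) v * Real.log (nm v) : ℝ) : ℂ) *
          ((cc E v : ℂ) * ((js d (nm v) : ℂ) * f v))‖ ≤
          A * Real.log (20 * d) := by
  classical
  have hsB := summable_wl73 (K := K) (σ := 3 / 2) (by norm_num)
  set B : ℝ := ∑' v : HeightOneSpectrum (𝓞 K), 4 * (wp (3 / 2) v * Real.log (nm v)) with hB
  have hB0 : 0 ≤ B := tsum_nonneg fun v => by
    have := (wl_le73 (K := K) (σ := 3 / 2) (by norm_num) v).1
    linarith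
  set N : ℕ := finrank ℤ (𝓞 K) with hN
  intro E d hd δ hδ f hf
  have hσ : 1 < 1 + δ := by linarith
  have hd1 : (1 : ℝ) ≤ d := by exact_mod_cast hd
  have hl1 : 1 ≤ Real.log (20 * d) := by
    rw [Real.le_log_iff_exp_le (by linarith)]
    linarith [Real.exp_one_lt_d9]
  have h6d : Ideal.span {((6 * d : ℕ) : 𝓞 K)} ≠ ⊥ := by
    rw [Ne, Ideal.span_singleton_eq_bot]
    have : (6 * d : ℕ) ≠ 0 := by omega
    exact_mod_cast this
  obtain ⟨hS, hSle⟩ := badL73 h6d (σ := 1 + δ) (by linarith)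
  have hSle' : ∑' v : HeightOneSpectrum (𝓞 K), (if Ideal.span {((6 * d : ℕ) : 𝓞 K)} ≤ v.asIdeal
      then wp (1 + δ) v * Real.log (nm v) else 0) ≤ N * Real.log (20 * d) := by
    refine hSle.trans ?_
    rw [Ideal.absNorm_span_natCast, ← hN, Nat.cast_pow, Real.log_pow]
    refine mul_le_mul_of_nonneg_left ?_ (Nat.cast_nonneg _)
    push_cast
    exact Real.log_le_log (by positivity) (by linarith)
  have hjs : ∀ v : HeightOneSpectrum (𝓞 K), ‖(js d (nm v) : ℂ)‖ ≤ 1 := fun v => by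
    rw [Complex.norm_intCast]
    exact LT73.abs_js_le _ _
  have hgen : ∀ (c : HeightOneSpectrum (𝓞 K) → ℝ) (g : HeightOneSpectrum (𝓞 K) → ℂ),
      (∀ v, |c v| ≤ 2) → (∀ v, ‖g v‖ ≤ 1) →
      Summable fun v : HeightOneSpectrum (𝓞 K) =>
        ((wp (1 + δ) v * Real.log (nm v) : ℝ) : ℂ) * ((c v : ℂ) * g v) := by
    intro c g hc hg
    refine Summable.of_norm_bounded (g := fun v => wp (1 + δ) v * Real.log (nm v) * 2)
      ((summable_wl73 hσ).mul_right 2) fun v => ?_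
    rw [norm_mul, Complex.norm_real, Real.norm_eq_abs, abs_of_nonneg (wl_le73 hσ v).1, norm_mul,
      Complex.norm_real]
    refine mul_le_mul_of_nonneg_left ?_ (wl_le73 hσ v).1
    calc |c v| * ‖g v‖ ≤ 2 * 1 := mul_le_mul (hc v) (hg v) (norm_nonneg _) (by norm_num)
      _ = 2 := by norm_num
  have hs1 := hgen (fun v => cc (qt E (d : K)) v) f (fun v => abs_cc_le _ v) hf
  have hs2 := hgen (fun v => cc E v) (fun v => (js d (nm v) : ℂ) * f v) (fun v => abs_cc_le _ v)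
    (fun v => by
      rw [norm_mul]
      exact mul_le_one₀ (hjs v) (norm_nonneg _) (hf v))
  have hs3 : Summable fun v : HeightOneSpectrum (𝓞 K) =>
      4 * (if Ideal.span {((6 * d : ℕ) : 𝓞 K)} ≤ v.asIdeal
      then wp (1 + δ) v * Real.log (nm v) else 0) + 4 * (wp (3 / 2) v * Real.log (nm v)) :=
    (hS.mul_left 4).add (hsB.mul_left 4)
  have hs3' : ∑' v : HeightOneSpectrum (𝓞 K),
      (4 * (if Ideal.span {((6 * d : ℕ) : 𝓞 K)} ≤ v.asIdeal
      then wp (1 + δ) v * Real.log (nm v) else 0) + 4 * (wp (3 / 2) v * Real.log (nm v))) ≤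
      4 * (N * Real.log (20 * d)) + B := by
    rw [(hS.mul_left 4).tsum_add (hsB.mul_left 4), tsum_mul_left]
    linarith
  have h8 : B ≤ B * Real.log (20 * d) := le_mul_of_one_le_right hB0 hl1
  rw [← hs1.tsum_sub hs2]
  have h9 : (4 * (N : ℝ) + B) * Real.log (20 * d) ≤ A * Real.log (20 * d) :=
    mul_le_mul_of_nonneg_right hA (by linarith)
  refine ((tsum_of_norm_bounded hs3.hasSum fun v => ?_).trans hs3').trans (by linarith)
  have e0 : ((wp (1 + δ) v * Real.log (nm v) : ℝ) : ℂ) * ((cc (qt E (d : K)) v : ℂ) * f v) -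
      ((wp (1 + δ) v * Real.log (nm v) : ℝ) : ℂ) * ((cc E v : ℂ) * ((js d (nm v) : ℂ) * f v)) =
      ((wp (1 + δ) v * Real.log (nm v) : ℝ) : ℂ) *
        ((((cc (qt E (d : K)) v - (js d (nm v) : ℝ) * cc E v : ℝ)) : ℂ) * f v) := by
    push_cast
    ring
  rw [e0, norm_mul, norm_mul, Complex.norm_real, Complex.norm_real, Real.norm_eq_abs,
    Real.norm_eq_abs, abs_of_nonneg (wl_le73 hσ v).1]
  have hw := (wl_le73 hσ v).1
  have hn := nm_pos' v
  have hn1 : (1 : ℝ) ≤ nm v := by exact_mod_cast (one_lt_nm v).le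
  have hlog : 0 ≤ Real.log (nm v) := Real.log_nonneg hn1
  have hw2 : 0 ≤ wp (3 / 2) v * Real.log (nm v) := mul_nonneg (wp_pos _ v).le hlog
  by_cases hv : ((6 * d : ℕ) : 𝓞 K) ∈ v.asIdeal
  · rw [if_pos ((Ideal.span_singleton_le_iff_mem _).mpr hv)]
    have h5 : |cc (qt E (d : K)) v - (js d (nm v) : ℝ) * cc E v| ≤ 4 := by
      refine (abs_sub _ _).trans ?_
      rw [abs_mul]
      have h6 : |(js d (nm v) : ℝ)| * |cc E v| ≤ 1 * 2 :=
        mul_le_mul (LT73.abs_js_le _ _) (abs_cc_le E v) (abs_nonneg _) (by norm_num)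
      linarith [abs_cc_le (qt E (d : K)) v]
    have h6 : |cc (qt E (d : K)) v - (js d (nm v) : ℝ) * cc E v| * ‖f v‖ ≤ 4 * 1 :=
      mul_le_mul h5 (hf v) (norm_nonneg _) (by norm_num)
    have h7 := mul_le_mul_of_nonneg_left h6 hw
    linarith
  · rw [if_neg (fun h => hv ((Ideal.span_singleton_le_iff_mem _).mp h)), mul_zero, zero_add]
    have h2d : ((2 * d : ℕ) : 𝓞 K) ∉ v.asIdeal := fun h => hv (by
      have : ((6 * d : ℕ) : 𝓞 K) = 3 * ((2 * d : ℕ) : 𝓞 K) := by push_cast; ring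
      rw [this]
      exact Ideal.mul_mem_left _ _ h)
    have h6 : (6 : 𝓞 K) * (d : 𝓞 K) ∉ v.asIdeal := fun h => hv (by
      have : ((6 * d : ℕ) : 𝓞 K) = 6 * (d : 𝓞 K) := by push_cast; ring
      rwa [this])
    have h7 := TW73.cc_qt E h6
    rw [chi_eq_js h2d] at h7
    have e1 : (((d : 𝓞 K)) : K) = (d : K) := by simp
    rw [e1] at h7
    calc wp (1 + δ) v * Real.log (nm v) *
          (|cc (qt E (d : K)) v - (js d (nm v) : ℝ) * cc E v| * ‖f v‖) ≤
          wp 1 v * Real.log (nm v) * (4 / Real.sqrt (nm v) * 1) := by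
          refine mul_le_mul ?_ ?_ (by positivity) (mul_nonneg (wp_pos 1 v).le hlog)
          · refine mul_le_mul_of_nonneg_right ?_ hlog
            exact Real.rpow_le_rpow_of_exponent_le hn1 (by linarith)
          · exact mul_le_mul h7 (hf v) (norm_nonneg _) (by positivity)
      _ = 4 * (wp (3 / 2) v * Real.log (nm v)) := by
          rw [wp, wp, Real.sqrt_eq_rpow, div_eq_mul_inv, ← Real.rpow_neg hn.le]
          rw [show (-(3 / 2) : ℝ) = -1 + -(1 / 2) by norm_num, Real.rpow_add hn]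
          ring

section unif

/-- PSL, with a constant which depends only on the degree. -/
theorem psl_unif36 (n : ℕ) : ∃ A : ℝ, 0 ≤ A ∧ ∀ (K : Type u) [Field K] [NumberField K],
    finrank ℚ K = n → ∀ ψ : Ideal (𝓞 K) →*₀ ℂ, (∀ I, ‖ψ I‖ ≤ 1) →
      ∀ s : ℂ, 1 < s.re → LI (ψ : Ideal (𝓞 K) → ℂ) s ≠ 0 ∧
        DifferentiableAt ℂ (LI (ψ : Ideal (𝓞 K) → ℂ)) s ∧
        ‖logDeriv (LI (ψ : Ideal (𝓞 K) → ℂ)) s + PSL ψ (s.re - 1) s.im‖ ≤ A := by
  refine ⟨2 * (4 * (n * Z36)), by have := Z36_nonneg; positivity, ?_⟩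
  intro K _ _ hn
  refine psl_cst36 K ?_
  rw [← hn]
  exact mul_le_mul_of_nonneg_left (tsum_wl_le36 K) (by norm_num)

/-- LELOG, with a constant which depends only on the degree. -/
theorem lelog_unif36 (n : ℕ) : ∃ A : ℝ, 0 ≤ A ∧ ∀ (K : Type u) [Field K] [NumberField K],
    finrank ℚ K = n → ∀ (E : WeierstrassCurve K)
      (f : HeightOneSpectrum (𝓞 K) → ℂ), (∀ v, ‖f v‖ ≤ 1) → ∀ δ t : ℝ, 0 < δ →
        LE E f ((3 / 2 + δ : ℝ) + t * Complex.I) ≠ 0 ∧
        DifferentiableAt ℂ (LE E f) ((3 / 2 + δ : ℝ) + t * Complex.I) ∧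
        ‖logDeriv (LE E f) ((3 / 2 + δ : ℝ) + t * Complex.I) +
          CRL (fun v => cc E v) f δ t‖ ≤ A := by
  refine ⟨1000 * (n * Z36), by have := Z36_nonneg; positivity, ?_⟩
  intro K _ _ hn
  refine lelog_cst36 K ?_
  rw [← hn]
  exact tsum_bd_le36 K

/-- SCTWL, with a constant which depends only on the degree. -/
theorem sctwl_unif36 (n : ℕ) : ∃ A : ℝ, 0 ≤ A ∧ ∀ (K : Type u) [Field K] [NumberField K],
    finrank ℚ K = n → ∀ (E : WeierstrassCurve K) (d : ℕ), 0 < d →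
      ∀ f : HeightOneSpectrum (𝓞 K) → ℂ, (∀ v, ‖f v‖ ≤ 1) → ∀ δ t : ℝ, 0 < δ →
        ‖CRL (fun v => cc (qt E (d : K)) v) f δ t -
          CRL (fun v => cc E v) (fun v => f v * (js d (nm v) : ℂ)) δ t‖ ≤
          A * Real.log (20 * d) := by
  refine ⟨4 * n + 16 * (n * Z36), by have := Z36_nonneg; positivity, ?_⟩
  intro K _ _ hn E d hd f hf δ t hδ
  have h1 := sl_cst36 K (A := 4 * n + 16 * (n * Z36)) (by
    rw [RingOfIntegers.rank, hn]
    have := tsum_wp_le36 K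
    rw [hn] at this
    linarith) E d hd δ hδ (fun v => f v * ph t (nm v)) (fun v => by
    rw [norm_mul, LT73.norm_ph, mul_one]
    exact hf v)
  have e : (fun v : HeightOneSpectrum (𝓞 K) => ((wp (1 + δ) v * Real.log (nm v) : ℝ) : ℂ) *
      ((cc E v : ℂ) * ((js d (nm v) : ℂ) * (f v * ph t (nm v))))) =
      fun v => (wl δ v : ℂ) * ((cc E v : ℂ) * (f v * (js d (nm v) : ℂ) * ph t (nm v))) := by
    funext v
    rw [wl]
    ring
  rw [e] at h1
  exact h1

end unif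

end Pool.Agent.Lib.MP_bf61d2_nt.Artin.Ray
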