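import Mathlib

set_option autoImplicit false

/-!
UNIF (MP_bf61d2_nt), part (1): short vectors in ideals, with constants depending on the degree only.
-/

namespace NumberField
end NumberField

namespace Pool.Agent.Lib.MP_bf61d2_nt.Artin.Ray

open NumberField NumberField.mixedEmbedding NumberField.InfinitePlace IsDedekindDomain Module

open MeasureTheory ZSpan

open scoped nonZeroDivisors NNReal ENNReal IntermediateField

universe u

section

variable (K : Type u) [Field K] [NumberField K]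

lemma one_le_sqrt_discr33 : 1 ≤ Real.sqrt |(discr K : ℝ)| := by
  rw [Real.one_le_sqrt]
  have h : (1 : ℤ) ≤ |discr K| := Int.one_le_abs (discr_ne_zero K)
  exact_mod_cast h

/-- The bound of Minkowski, in terms of the discriminant. -/
lemma minkowskiBound_le33 (I : (FractionalIdeal (𝓞 K)⁰ K)ˣ) :
    minkowskiBound K I ≤ ENNReal.ofReal ((FractionalIdeal.absNorm I.1 : ℝ) *
      Real.sqrt |(discr K : ℝ)| * 2 ^ finrank ℚ K) := by
  have h0 : (0 : ℝ) ≤ (FractionalIdeal.absNorm I.1 : ℝ) := by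
    exact_mod_cast FractionalIdeal.absNorm_nonneg I.1
  rw [minkowskiBound, volume_fundamentalDomain_fractionalIdealLatticeBasis,
    mixedEmbedding.finrank, volume_fundamentalDomain_latticeBasis,
    ENNReal.ofReal_mul (by positivity), ENNReal.ofReal_mul h0]
  have h1 : ENNReal.ofReal (2 ^ finrank ℚ K) = (2 : ℝ≥0∞) ^ finrank ℚ K := by
    rw [ENNReal.ofReal_pow (by norm_num)]
    norm_num
  have h2 : ENNReal.ofReal (Real.sqrt |(discr K : ℝ)|) =
      ((NNReal.sqrt ‖discr K‖₊ : ℝ≥0) : ℝ≥0∞) := by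
    rw [ENNReal.ofReal, ENNReal.coe_inj, ← NNReal.coe_inj,
      Real.coe_toNNReal _ (Real.sqrt_nonneg _), Real.coe_sqrt, coe_nnnorm, Int.norm_eq_abs]
  rw [h1, h2]
  gcongr
  calc (2 : ℝ≥0∞)⁻¹ ^ nrComplexPlaces K * ((NNReal.sqrt ‖discr K‖₊ : ℝ≥0) : ℝ≥0∞)
      ≤ 1 * ((NNReal.sqrt ‖discr K‖₊ : ℝ≥0) : ℝ≥0∞) := by
        gcongr
        exact pow_le_one₀ (by positivity) (by simp)
    _ = _ := one_mul _

end

/-- A primitive element with small conjugates. -/
theorem hermite33 (n : ℕ) : ∃ C : ℝ, 1 ≤ C ∧ ∀ (K : Type u) [Field K] [NumberField K],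
    finrank ℚ K = n → ∃ θ : 𝓞 K, ℚ⟮(θ : K)⟯ = ⊤ ∧
      ∀ w : InfinitePlace K, w (θ : K) ≤ C * Real.sqrt |(discr K : ℝ)| := by
  refine ⟨2 ^ n + 2, by
    have : (0 : ℝ) ≤ 2 ^ n := by positivity
    linarith, fun K _ _ hn => ?_⟩
  have hd := one_le_sqrt_discr33 K
  set D : ℝ := Real.sqrt |(discr K : ℝ)| with hD
  set B : ℝ≥0 := ⟨2 ^ n * D + 1, by positivity⟩ with hB
  have hBr : (B : ℝ) = 2 ^ n * D + 1 := rfl
  have h2n : (1 : ℝ) ≤ 2 ^ n := one_le_pow₀ (by norm_num)
  have hB1 : (1 : ℝ) ≤ B := by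
    rw [hBr]
    nlinarith
  have hle : (B : ℝ) + 1 ≤ (2 ^ n + 2) * D := by
    rw [hBr]
    nlinarith
  have hmb : minkowskiBound K ↑1 < (B : ℝ≥0∞) := by
    refine (minkowskiBound_le33 K 1).trans_lt ?_
    rw [Units.val_one, FractionalIdeal.absNorm_one, Rat.cast_one, one_mul, hn,
      ← ENNReal.ofReal_coe_nnreal, hBr]
    refine (ENNReal.ofReal_lt_ofReal_iff (by positivity)).mpr ?_
    linarith
  obtain ⟨w₀⟩ : Nonempty (InfinitePlace K) := inferInstance
  by_cases hw : IsReal w₀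
  · obtain ⟨a, ha, h⟩ := exists_primitive_element_lt_of_isReal K hw (B := B) (by
      refine hmb.trans_le ?_
      calc (B : ℝ≥0∞) = 1 * B := by rw [one_mul]
        _ ≤ convexBodyLTFactor K * B := by
          gcongr
          exact mod_cast one_le_convexBodyLTFactor K)
    refine ⟨a, ha, fun w => (h w).le.trans ?_⟩
    rw [NNReal.coe_max, NNReal.coe_one, max_eq_left hB1]
    linarith
  · have hw' : IsComplex w₀ := not_isReal_iff_isComplex.mp hw
    obtain ⟨a, ha, h⟩ := exists_primitive_element_lt_of_isComplex K hw' (B := B) (by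
      refine hmb.trans_le ?_
      calc (B : ℝ≥0∞) = 1 * B := by rw [one_mul]
        _ ≤ convexBodyLT'Factor K * B := by
          gcongr
          exact mod_cast one_le_convexBodyLT'Factor K)
    refine ⟨a, ha, fun w => (h w).le.trans (le_trans ?_ hle)⟩
    rw [Real.sqrt_le_left (by positivity)]
    nlinarith

/-- The theorem of Minkowski for a box. -/
theorem minkowski33 (n : ℕ) : ∀ (K : Type u) [Field K] [NumberField K],
    finrank ℚ K = n → ∀ J : Ideal (𝓞 K), J ≠ ⊥ → ∀ y : InfinitePlace K → ℝ,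
      ∑ w, (mult w : ℝ) * y w = 0 → ∃ β : 𝓞 K, β ∈ J ∧ β ≠ 0 ∧ ∀ w : InfinitePlace K,
        w (β : K) ≤ 3 * (Real.sqrt |(discr K : ℝ)| * Ideal.absNorm J) ^ (1 / (n : ℝ)) *
          Real.exp (y w) := by
  classical
  intro K _ _ hn J hJ y hy
  have hn0 : 0 < n := hn ▸ finrank_pos
  have hd := one_le_sqrt_discr33 K
  set D : ℝ := Real.sqrt |(discr K : ℝ)| with hD
  have hJ1 : (1 : ℝ) ≤ Ideal.absNorm J := by
    have : Ideal.absNorm J ≠ 0 := fun h => hJ (Ideal.absNorm_eq_zero_iff.mp h)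
    exact_mod_cast Nat.one_le_iff_ne_zero.mpr this
  set X : ℝ := D * Ideal.absNorm J with hX
  have hX1 : 1 ≤ X := by
    rw [hX]
    nlinarith
  set f : InfinitePlace K → ℝ≥0 := fun w =>
    ⟨3 * X ^ (1 / (n : ℝ)) * Real.exp (y w), by positivity⟩ with hf
  have hfr : ∀ w, (f w : ℝ) = 3 * X ^ (1 / (n : ℝ)) * Real.exp (y w) := fun w => rfl
  have hprod : ∏ w, (f w : ℝ) ^ mult w = 3 ^ n * X := by
    have h1 : ∀ w : InfinitePlace K, (f w : ℝ) ^ mult w =
        (3 * X ^ (1 / (n : ℝ))) ^ mult w * Real.exp ((mult w : ℝ) * y w) := by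
      intro w
      rw [hfr, mul_pow, Real.exp_nat_mul]
    rw [Finset.prod_congr rfl fun w _ => h1 w, Finset.prod_mul_distrib, Finset.prod_pow_eq_pow_sum,
      sum_mult_eq, hn, ← Real.exp_sum, hy, Real.exp_zero, mul_one, mul_pow, ← Real.rpow_natCast
      (X ^ (1 / (n : ℝ))) n, ← Real.rpow_mul (by linarith), one_div,
      inv_mul_cancel₀ (by exact_mod_cast hn0.ne'), Real.rpow_one]
  have hJu : (J : FractionalIdeal (𝓞 K)⁰ K) ≠ 0 := by
    rw [Ne, FractionalIdeal.coeIdeal_eq_zero]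
    exact hJ
  have hvol : minkowskiBound K (Units.mk0 (J : FractionalIdeal (𝓞 K)⁰ K) hJu) <
      volume (convexBodyLT K f) := by
    refine (minkowskiBound_le33 K _).trans_lt ?_
    rw [Units.val_mk0, FractionalIdeal.coeIdeal_absNorm, Rat.cast_natCast, convexBodyLT_volume]
    have h1 : ENNReal.ofReal ((Ideal.absNorm J : ℝ) * D * 2 ^ finrank ℚ K) <
        ENNReal.ofReal (3 ^ n * X) := by
      refine (ENNReal.ofReal_lt_ofReal_iff (by positivity)).mpr ?_
      rw [hn, hX]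
      have h2 : (2 : ℝ) ^ n < 3 ^ n := pow_lt_pow_left₀ (by norm_num) (by norm_num) hn0.ne'
      have h3 : 0 < D * Ideal.absNorm J := by positivity
      nlinarith
    refine h1.trans_le ?_
    have h4 : ENNReal.ofReal (3 ^ n * X) = ((∏ w, (f w) ^ mult w : ℝ≥0) : ℝ≥0∞) := by
      rw [ENNReal.ofReal, ENNReal.coe_inj, ← NNReal.coe_inj, Real.coe_toNNReal _ (by positivity)]
      push_cast
      exact hprod.symm
    rw [h4]
    calc ((∏ w, (f w) ^ mult w : ℝ≥0) : ℝ≥0∞) = 1 * ((∏ w, (f w) ^ mult w : ℝ≥0) : ℝ≥0∞) := by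
          rw [one_mul]
      _ ≤ convexBodyLTFactor K * ((∏ w, (f w) ^ mult w : ℝ≥0) : ℝ≥0∞) := by
          gcongr
          exact mod_cast one_le_convexBodyLTFactor K
      _ = _ := by push_cast; rfl
  obtain ⟨a, ha, ha0, haw⟩ := exists_ne_zero_mem_ideal_lt K _ hvol
  rw [Units.val_mk0, FractionalIdeal.mem_coeIdeal] at ha
  obtain ⟨β, hβ, rfl⟩ := ha
  refine ⟨β, hβ, fun h => ha0 (by rw [h, map_zero]), fun w => ?_⟩
  exact (haw w).le.trans (le_of_eq (hfr w))

lemma linearIndependent_congr_simp33 {ι V : Type*} [AddCommGroup V] [Module ℚ V] {f g : ι → V}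
    (h : ∀ i, f i = g i) : LinearIndependent ℚ f ↔ LinearIndependent ℚ g := by
  rw [funext h]

/-- Short linearly independent elements of an ideal, in a rescaled box. -/
theorem short33 (n : ℕ) : ∃ C : ℝ, 1 ≤ C ∧ ∀ (K : Type u) [Field K] [NumberField K],
    finrank ℚ K = n → ∀ J : Ideal (𝓞 K), J ≠ ⊥ → ∀ y : InfinitePlace K → ℝ,
      ∑ w, (mult w : ℝ) * y w = 0 → ∃ v : Fin n → 𝓞 K, (∀ i, v i ∈ J) ∧
        LinearIndependent ℚ (fun i => (v i : K)) ∧ ∀ i, ∀ w : InfinitePlace K,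
          w (v i : K) ≤ C * (|(discr K : ℝ)| * Ideal.absNorm J) ^ (n + 1) * Real.exp (y w) := by
  obtain ⟨C, hC, h⟩ := hermite33.{u} n
  refine ⟨3 * C ^ n, by
    have := one_le_pow₀ (n := n) hC
    linarith, fun K _ _ hn J hJ y hy => ?_⟩
  obtain ⟨θ, hθ, hθw⟩ := h K hn
  obtain ⟨β, hβJ, hβ0, hβw⟩ := minkowski33 n K hn J hJ y hy
  have hn0 : 0 < n := hn ▸ finrank_pos
  have hd := one_le_sqrt_discr33 K
  have hd1 : 1 ≤ |(discr K : ℝ)| := by
    have h : (1 : ℤ) ≤ |discr K| := Int.one_le_abs (discr_ne_zero K)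
    exact_mod_cast h
  have hdd : Real.sqrt |(discr K : ℝ)| ≤ |(discr K : ℝ)| := by
    rw [Real.sqrt_le_left (abs_nonneg _)]
    nlinarith
  set D : ℝ := Real.sqrt |(discr K : ℝ)| with hD
  set Δ : ℝ := |(discr K : ℝ)| with hΔ
  have hJ1 : (1 : ℝ) ≤ Ideal.absNorm J := by
    have : Ideal.absNorm J ≠ 0 := fun h => hJ (Ideal.absNorm_eq_zero_iff.mp h)
    exact_mod_cast Nat.one_le_iff_ne_zero.mpr this
  set N : ℝ := (Ideal.absNorm J : ℝ) with hN
  refine ⟨fun i => β * θ ^ (i : ℕ), fun i => J.mul_mem_right _ hβJ, ?_, fun i w => ?_⟩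
  · have hdeg : (minpoly ℚ (θ : K)).natDegree = n := by
      rw [← hn]
      exact (Field.primitive_element_iff_minpoly_natDegree_eq ℚ (θ : K)).mp hθ
    have h1 : LinearIndependent ℚ fun i : Fin n => (θ : K) ^ (i : ℕ) := by
      have h2 := linearIndependent_pow (K := ℚ) (θ : K)
      have h3 := h2.comp (Fin.cast hdeg.symm) (Fin.cast_injective _)
      exact h3
    have hβK : (β : K) ≠ 0 := fun h => hβ0 (RingOfIntegers.coe_eq_zero_iff.mp h)
    have h4 := h1.map' (LinearMap.mulLeft ℚ (β : K))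
      (LinearMap.ker_eq_bot.mpr (mul_right_injective₀ hβK))
    refine (linearIndependent_congr_simp33 fun i => ?_).mpr h4
    simp
  · push_cast
    rw [map_mul, map_pow]
    have h1 : (D * N) ^ (1 / (n : ℝ)) ≤ Δ * N := by
      calc (D * N) ^ (1 / (n : ℝ)) ≤ (D * N) ^ (1 : ℝ) := by
            refine Real.rpow_le_rpow_of_exponent_le (by nlinarith) ?_
            rw [div_le_one (by exact_mod_cast hn0)]
            exact_mod_cast hn0
        _ = D * N := Real.rpow_one _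
        _ ≤ Δ * N := by gcongr
    have h2 : w (θ : K) ^ (i : ℕ) ≤ C ^ n * (Δ * N) ^ n := by
      calc w (θ : K) ^ (i : ℕ) ≤ (C * D) ^ (i : ℕ) :=
            pow_le_pow_left₀ (apply_nonneg _ _) (hθw w) _
        _ ≤ (C * D) ^ n := pow_le_pow_right₀ (by nlinarith) i.2.le
        _ ≤ (C * (Δ * N)) ^ n := by
            gcongr
            nlinarith
        _ = _ := mul_pow _ _ _
    calc w (β : K) * w (θ : K) ^ (i : ℕ)
        ≤ (3 * (D * N) ^ (1 / (n : ℝ)) * Real.exp (y w)) * (C ^ n * (Δ * N) ^ n) := by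
          gcongr
          exact hβw w
      _ ≤ (3 * (Δ * N) * Real.exp (y w)) * (C ^ n * (Δ * N) ^ n) := by gcongr
      _ = _ := by ring

end Pool.Agent.Lib.MP_bf61d2_nt.Artin.Ray
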