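import Mathlib
import Pool.Agent.Lib.MP_bf61d2_nt.Trim.Artin.U2.SHORT33

set_option autoImplicit false

/-!
UNIF (MP_bf61d2_nt), part (4): the number of ideals of bounded norm, and the bound of Landau for
the product of the class number and the regulator, with constants depending on the degree only.
-/

namespace NumberField
end NumberField

namespace Pool.Agent.Lib.MP_bf61d2_nt.Artin.Ray

open NumberField NumberField.mixedEmbedding NumberField.InfinitePlace IsDedekindDomain Module

open NumberField.Units NumberField.Units.dirichletUnitTheorem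

open MeasureTheory ZSpan

open scoped Classical nonZeroDivisors NNReal ENNReal IntermediateField Pointwise

universe u

section Count

variable (K : Type u) [Field K] [NumberField K]

/-- The ideals of norm `m`, as codes modulo `m`. -/
lemma ncard_norm_eq33 (m : ℕ) (hm : m ≠ 0) :
    {I : Ideal (𝓞 K) | Ideal.absNorm I = m}.Finite ∧
    {I : Ideal (𝓞 K) | Ideal.absNorm I = m}.ncard ≤ m ^ (finrank ℚ K * finrank ℚ K) := by
  have hfin : {I : Ideal (𝓞 K) | Ideal.absNorm I = m}.Finite :=
    Ideal.finite_setOfPred_absNorm_eq m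
  refine ⟨hfin, ?_⟩
  have : NeZero m := ⟨hm⟩
  set b := RingOfIntegers.basis K with hb
  have hcard : Fintype.card (Module.Free.ChooseBasisIndex ℤ (𝓞 K)) = finrank ℚ K := by
    rw [← finrank_eq_card_chooseBasisIndex, RingOfIntegers.rank]
  have hne : ∀ I ∈ {I : Ideal (𝓞 K) | Ideal.absNorm I = m}, I ≠ ⊥ := by
    rintro I hI rfl
    rw [Set.mem_ofPred_eq, Ideal.absNorm_bot] at hI
    exact hm hI.symm
  set Φ : Ideal (𝓞 K) → (Module.Free.ChooseBasisIndex ℤ (𝓞 K) →
      Module.Free.ChooseBasisIndex ℤ (𝓞 K) → ZMod m) := fun I =>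
    if hI : I ≠ ⊥ then fun j i => (b.repr (Ideal.selfBasis b I hI j : 𝓞 K) i : ZMod m)
    else fun _ _ => 0 with hΦ
  have hsub : ∀ I I' : Ideal (𝓞 K), Ideal.absNorm I = m → Ideal.absNorm I' = m →
      Φ I = Φ I' → I ≤ I' := by
    intro I I' hI hI' h
    have h0 : I ≠ ⊥ := hne I hI
    have h0' : I' ≠ ⊥ := hne I' hI'
    have hmI' : ((m : ℕ) : 𝓞 K) ∈ I' := by
      rw [← hI']
      exact Ideal.absNorm_mem I'
    rw [hΦ] at h
    simp only [dif_pos h0, dif_pos h0'] at h
    have h1 : ∀ j, (Ideal.selfBasis b I h0 j : 𝓞 K) ∈ I' := by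
      intro j
      have h2 : (Ideal.selfBasis b I h0 j : 𝓞 K) =
          (Ideal.selfBasis b I' h0' j : 𝓞 K) +
            ((Ideal.selfBasis b I h0 j : 𝓞 K) - (Ideal.selfBasis b I' h0' j : 𝓞 K)) := by ring
      rw [h2]
      refine I'.add_mem (Ideal.selfBasis b I' h0' j).2 ?_
      have h3 : ∀ i, ∃ k : ℤ, b.repr ((Ideal.selfBasis b I h0 j : 𝓞 K) -
          (Ideal.selfBasis b I' h0' j : 𝓞 K)) i = m * k := by
        intro i
        have h4 := congr_fun (congr_fun h j) i
        rw [← sub_eq_zero, ← Int.cast_sub, ZMod.intCast_zmod_eq_zero_iff_dvd] at h4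
        obtain ⟨k, hk⟩ := h4
        exact ⟨k, by rw [map_sub, Finsupp.sub_apply, hk]⟩
      choose k hk using h3
      rw [← b.sum_repr ((Ideal.selfBasis b I h0 j : 𝓞 K) - (Ideal.selfBasis b I' h0' j : 𝓞 K))]
      refine I'.sum_mem fun i _ => ?_
      rw [hk i, zsmul_eq_mul]
      push_cast
      rw [mul_assoc]
      exact I'.mul_mem_right _ hmI'
    intro x hx
    have h5 := (Ideal.selfBasis b I h0).sum_repr ⟨x, hx⟩
    have h6 : x = ∑ j, (Ideal.selfBasis b I h0).repr ⟨x, hx⟩ j •
        (Ideal.selfBasis b I h0 j : 𝓞 K) := by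
      have h7 := congr_arg (fun z : I => (z : 𝓞 K)) h5
      simp only [Submodule.coe_sum, Submodule.coe_smul_of_tower] at h7
      exact h7.symm
    rw [h6]
    exact I'.sum_mem fun j _ => zsmul_mem (h1 j) _
  have hinj : Set.InjOn Φ {I : Ideal (𝓞 K) | Ideal.absNorm I = m} := fun I hI I' hI' h =>
    le_antisymm (hsub I I' hI hI' h) (hsub I' I hI' hI h.symm)
  calc {I : Ideal (𝓞 K) | Ideal.absNorm I = m}.ncard
      = (Φ '' {I : Ideal (𝓞 K) | Ideal.absNorm I = m}).ncard := (Set.InjOn.ncard_image hinj).symm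
    _ ≤ Nat.card (Module.Free.ChooseBasisIndex ℤ (𝓞 K) →
      Module.Free.ChooseBasisIndex ℤ (𝓞 K) → ZMod m) := Set.ncard_le_card _
    _ = m ^ (finrank ℚ K * finrank ℚ K) := by
        rw [Nat.card_eq_fintype_card, Fintype.card_fun, Fintype.card_fun, ZMod.card, hcard, pow_mul]

/-- The nonzero ideals of norm at most `X`. -/
noncomputable def smallIdeals33 (X : ℝ) : Finset (Ideal (𝓞 K)) :=
  (Finset.Icc 1 ⌊X⌋₊).biUnion fun m => if hm : m ≠ 0 then (ncard_norm_eq33 K m hm).1.toFinset else ∅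

lemma mem_smallIdeals33 {X : ℝ} {I : Ideal (𝓞 K)} (hI : I ≠ ⊥) (h : (Ideal.absNorm I : ℝ) ≤ X) :
    I ∈ smallIdeals33 K X := by
  have h0 : Ideal.absNorm I ≠ 0 := fun h => hI (Ideal.absNorm_eq_zero_iff.mp h)
  rw [smallIdeals33, Finset.mem_biUnion]
  refine ⟨Ideal.absNorm I, Finset.mem_Icc.mpr ⟨Nat.one_le_iff_ne_zero.mpr h0,
    Nat.le_floor h⟩, ?_⟩
  rw [dif_pos h0, Set.Finite.mem_toFinset]
  rfl

lemma card_smallIdeals33 {X : ℝ} (hX : 0 ≤ X) : ((smallIdeals33 K X).card : ℝ) ≤
    X ^ (finrank ℚ K * finrank ℚ K + 1) := by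
  set N := finrank ℚ K * finrank ℚ K with hN
  have h1 : (smallIdeals33 K X).card ≤ ∑ m ∈ Finset.Icc 1 ⌊X⌋₊, ⌊X⌋₊ ^ N := by
    refine Finset.card_biUnion_le.trans (Finset.sum_le_sum fun m hm => ?_)
    rw [Finset.mem_Icc] at hm
    have h0 : m ≠ 0 := by omega
    rw [dif_pos h0, ← Set.ncard_eq_toFinset_card _ (ncard_norm_eq33 K m h0).1]
    exact (ncard_norm_eq33 K m h0).2.trans (Nat.pow_le_pow_left hm.2 _)
  rw [Finset.sum_const, Nat.card_Icc, Nat.add_sub_cancel, smul_eq_mul] at h1
  calc ((smallIdeals33 K X).card : ℝ) ≤ ((⌊X⌋₊ * ⌊X⌋₊ ^ N : ℕ) : ℝ) := by exact_mod_cast h1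
    _ = (⌊X⌋₊ : ℝ) ^ (N + 1) := by push_cast; ring
    _ ≤ X ^ (N + 1) := pow_le_pow_left₀ (Nat.cast_nonneg _) (Nat.floor_le hX) _

end Count

section Reg

variable (K : Type u) [Field K] [NumberField K]

/-- The exponents of trace zero attached to a point of the logarithmic space. -/
noncomputable def ext33 (y : logSpace K) (w : InfinitePlace K) : ℝ :=
  if h : w = w₀ then -(∑ v, y v) / mult w else y ⟨w, h⟩ / mult w

lemma mult_pos33 (w : InfinitePlace K) : (0 : ℝ) < mult w := by
  exact_mod_cast InfinitePlace.mult_pos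

lemma mult_ext33 (y : logSpace K) {w : InfinitePlace K} (h : w ≠ w₀) :
    (mult w : ℝ) * ext33 K y w = y ⟨w, h⟩ := by
  rw [ext33, dif_neg h]
  have := mult_pos33 K w
  field_simp

lemma sum_ext33 (y : logSpace K) : ∑ w, (mult w : ℝ) * ext33 K y w = 0 := by
  rw [← Fintype.sum_subtype_add_sum_subtype (fun w : InfinitePlace K => w ≠ w₀)]
  have h1 : ∑ v : {w : InfinitePlace K // w ≠ w₀}, (mult v.1 : ℝ) * ext33 K y v.1 = ∑ v, y v :=
    Finset.sum_congr rfl fun v _ => mult_ext33 K y v.2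
  have h2 : ∑ v : {w : InfinitePlace K // ¬ w ≠ w₀}, (mult v.1 : ℝ) * ext33 K y v.1 =
      -∑ v, y v := by
    have h3 : ∀ v : {w : InfinitePlace K // ¬ w ≠ w₀}, (mult v.1 : ℝ) * ext33 K y v.1 =
        -∑ v, y v := by
      intro v
      have hv : v.1 = w₀ := not_not.mp v.2
      have := mult_pos33 K v.1
      rw [ext33, dif_pos hv]
      field_simp
    have : Unique {w : InfinitePlace K // ¬ w ≠ w₀} :=
      { default := ⟨w₀, not_not.mpr rfl⟩
        uniq := fun v => Subtype.ext (not_not.mp v.2) }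
    rw [Fintype.sum_unique, h3]
  rw [h1, h2, add_neg_cancel]

lemma absNorm_span33 (β : 𝓞 K) : (Ideal.absNorm (Ideal.span {β}) : ℝ) =
    ∏ w : InfinitePlace K, w (β : K) ^ mult w := by
  rw [InfinitePlace.prod_eq_abs_norm, Ideal.absNorm_span_singleton, ← Algebra.coe_norm_int,
    ← Int.cast_natCast, Int.natCast_natAbs]
  push_cast
  rfl

/-- The logarithmic point of an element, normalised by the norm of the ideal. -/
noncomputable def lgp33 (J : Ideal (𝓞 K)) (β : 𝓞 K) : logSpace K := fun v =>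
  mult v.1 * (Real.log (v.1 (β : K)) - Real.log (Ideal.absNorm J) / finrank ℚ K)

lemma place_pos33 {β : 𝓞 K} (hβ : β ≠ 0) (w : InfinitePlace K) : 0 < w (β : K) :=
  InfinitePlace.pos_iff.mpr (fun h => hβ (RingOfIntegers.coe_eq_zero_iff.mp h))

/-- A point of the logarithmic space is close to a short element. -/
lemma close33 {n : ℕ} (hn : finrank ℚ K = n) {J : Ideal (𝓞 K)} (hJ : J ≠ ⊥) (y : logSpace K) :
    ∃ β : 𝓞 K, β ∈ J ∧ β ≠ 0 ∧
      (Ideal.absNorm (Ideal.span {β}) : ℝ) ≤ 3 ^ n * Real.sqrt |(discr K : ℝ)| *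
        Ideal.absNorm J ∧
      y ∈ Metric.closedBall (lgp33 K J β)
        (n * (Real.log 3 + Real.log (Real.sqrt |(discr K : ℝ)|))) := by
  have hn0 : 0 < n := hn ▸ finrank_pos
  have hnr : (0 : ℝ) < n := by exact_mod_cast hn0
  have hn1 : (1 : ℝ) ≤ n := by exact_mod_cast hn0
  obtain ⟨β, hβJ, hβ0, hβw⟩ := minkowski33 n K hn J hJ (ext33 K y) (sum_ext33 K y)
  have hd := one_le_sqrt_discr33 K
  set D : ℝ := Real.sqrt |(discr K : ℝ)| with hD
  have hJ1 : (1 : ℝ) ≤ Ideal.absNorm J := by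
    have : Ideal.absNorm J ≠ 0 := fun h => hJ (Ideal.absNorm_eq_zero_iff.mp h)
    exact_mod_cast Nat.one_le_iff_ne_zero.mpr this
  set N : ℝ := (Ideal.absNorm J : ℝ) with hN
  have hDN : 0 < D * N := by positivity
  have hlD : 0 ≤ Real.log D := Real.log_nonneg hd
  have hl3 : 0 < Real.log 3 := Real.log_pos (by norm_num)
  set T : ℝ := Real.log 3 + Real.log D with hT
  have hT0 : 0 < T := by linarith
  -- the logarithmic form
  have hlog : ∀ w : InfinitePlace K, Real.log (w (β : K)) - Real.log N / n - ext33 K y w ≤ T := by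
    intro w
    have h1 := Real.log_le_log (place_pos33 K hβ0 w) (hβw w)
    rw [Real.log_mul (by positivity) (Real.exp_pos _).ne', Real.log_mul (by norm_num)
      (by positivity), Real.log_rpow hDN, Real.log_exp, Real.log_mul (by positivity)
      (by positivity)] at h1
    have h2 : 1 / (n : ℝ) * (Real.log D + Real.log N) = Real.log D / n + Real.log N / n := by
      ring
    have h3 : Real.log D / n ≤ Real.log D := div_le_self hlD hn1
    rw [h2] at h1
    linarith
  have hle : (Ideal.absNorm J : ℝ) ≤ Ideal.absNorm (Ideal.span {β}) := by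
    have h1 : J ∣ Ideal.span {β} := by
      rw [Ideal.dvd_iff_le, Ideal.span_singleton_le_iff_mem]
      exact hβJ
    have h2 : Ideal.absNorm J ∣ Ideal.absNorm (Ideal.span {β}) := Ideal.absNorm_dvd_absNorm_of_le
      (Ideal.dvd_iff_le.mp h1)
    have h3 : Ideal.absNorm (Ideal.span {β}) ≠ 0 := by
      intro h
      rw [Ideal.absNorm_eq_zero_iff, Ideal.span_singleton_eq_bot] at h
      exact hβ0 h
    exact_mod_cast Nat.le_of_dvd (Nat.pos_of_ne_zero h3) h2
  have hsumlog : ∑ w : InfinitePlace K, (mult w : ℝ) * Real.log (w (β : K)) =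
      Real.log (Ideal.absNorm (Ideal.span {β})) := by
    rw [absNorm_span33, Real.log_prod (fun w _ => (pow_pos (place_pos33 K hβ0 w) _).ne')]
    refine Finset.sum_congr rfl fun w _ => ?_
    rw [Real.log_pow]
  have hmult : ∑ w : InfinitePlace K, (mult w : ℝ) = n := by
    rw [← hn, ← InfinitePlace.sum_mult_eq (K := K)]
    push_cast
    rfl
  set d : InfinitePlace K → ℝ := fun w =>
    (mult w : ℝ) * (Real.log (w (β : K)) - Real.log N / n - ext33 K y w) with hd'
  have hsumd : 0 ≤ ∑ w, d w := by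
    have h1 : ∑ w, d w = ∑ w : InfinitePlace K, (mult w : ℝ) * Real.log (w (β : K)) -
        (∑ w : InfinitePlace K, (mult w : ℝ)) * (Real.log N / n) -
        ∑ w, (mult w : ℝ) * ext33 K y w := by
      rw [Finset.sum_mul, ← Finset.sum_sub_distrib, ← Finset.sum_sub_distrib]
      refine Finset.sum_congr rfl fun w _ => ?_
      rw [hd']
      ring
    rw [h1, hsumlog, hmult, sum_ext33, mul_div_cancel₀ _ hnr.ne', sub_zero, sub_nonneg]
    exact Real.log_le_log (by linarith) hle
  have hdle : ∀ w, d w ≤ mult w * T := fun w =>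
    mul_le_mul_of_nonneg_left (hlog w) (mult_pos33 K w).le
  refine ⟨β, hβJ, hβ0, ?_, ?_⟩
  · rw [absNorm_span33]
    calc ∏ w : InfinitePlace K, w (β : K) ^ mult w
        ≤ ∏ w : InfinitePlace K, (3 * (D * N) ^ (1 / (n : ℝ)) * Real.exp (ext33 K y w)) ^ mult w :=
          Finset.prod_le_prod (fun w _ => pow_nonneg (apply_nonneg _ _) _) fun w _ =>
            pow_le_pow_left₀ (apply_nonneg _ _) (hβw w) _
      _ = 3 ^ n * (D * N) := by
          have h1 : ∀ w : InfinitePlace K, (3 * (D * N) ^ (1 / (n : ℝ)) *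
              Real.exp (ext33 K y w)) ^ mult w = (3 * (D * N) ^ (1 / (n : ℝ))) ^ mult w *
                Real.exp ((mult w : ℝ) * ext33 K y w) := by
            intro w
            rw [mul_pow, Real.exp_nat_mul]
          rw [Finset.prod_congr rfl fun w _ => h1 w, Finset.prod_mul_distrib,
            Finset.prod_pow_eq_pow_sum, sum_mult_eq, hn, ← Real.exp_sum, sum_ext33, Real.exp_zero,
            mul_one, mul_pow, ← Real.rpow_natCast ((D * N) ^ (1 / (n : ℝ))) n,
            ← Real.rpow_mul hDN.le, one_div, inv_mul_cancel₀ hnr.ne', Real.rpow_one]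
      _ = 3 ^ n * D * N := by ring
  · rw [Metric.mem_closedBall, dist_pi_le_iff (by positivity)]
    intro v
    have h1 : y v - lgp33 K J β v = -d v.1 := by
      rw [lgp33, hd', hn]
      have h2 := mult_ext33 K y v.2
      simp only
      linear_combination -h2
    rw [Real.dist_eq, h1, abs_neg, abs_le]
    have h3 : (mult v.1 : ℝ) * T ≤ n * T := by
      refine mul_le_mul_of_nonneg_right ?_ hT0.le
      rw [← hmult]
      exact Finset.single_le_sum (fun w _ => (mult_pos33 K w).le) (Finset.mem_univ v.1)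
    refine ⟨?_, (hdle v.1).trans h3⟩
    have h4 : ∑ w, d w = d v.1 + ∑ w ∈ Finset.univ.erase v.1, d w :=
      (Finset.add_sum_erase _ _ (Finset.mem_univ v.1)).symm
    have h5 : ∑ w ∈ Finset.univ.erase v.1, d w ≤ n * T := by
      calc ∑ w ∈ Finset.univ.erase v.1, d w ≤ ∑ w ∈ Finset.univ.erase v.1, (mult w : ℝ) * T :=
            Finset.sum_le_sum fun w _ => hdle w
        _ ≤ ∑ w, (mult w : ℝ) * T := Finset.sum_le_sum_of_subset_of_nonneg (Finset.erase_subset _ _)
            fun w _ _ => mul_nonneg (mult_pos33 K w).le hT0.le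
        _ = n * T := by rw [← Finset.sum_mul, hmult]
    linarith

/-- The class of an ideal. -/
noncomputable def cls33 (I : Ideal (𝓞 K)) : ClassGroup (𝓞 K) :=
  if h : I ∈ (Ideal (𝓞 K))⁰ then ClassGroup.mk0 ⟨I, h⟩ else 1

/-- One class. -/
lemma reg_le33 {n : ℕ} (hn : finrank ℚ K = n) (c : ClassGroup (𝓞 K)) :
    regulator K ≤ ((smallIdeals33 K (3 ^ n * Real.sqrt |(discr K : ℝ)|)).filter
      fun I => cls33 K I = c).card *
        (2 * (n * (Real.log 3 + Real.log (Real.sqrt |(discr K : ℝ)|)))) ^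
          Fintype.card {w : InfinitePlace K // w ≠ w₀} := by
  have hd := one_le_sqrt_discr33 K
  set D : ℝ := Real.sqrt |(discr K : ℝ)| with hD
  have hlD : 0 ≤ Real.log D := Real.log_nonneg hd
  have hl3 : 0 < Real.log 3 := Real.log_pos (by norm_num)
  set ρ : ℝ := n * (Real.log 3 + Real.log D) with hρ
  have hρ0 : 0 ≤ ρ := by positivity
  set r : ℕ := Fintype.card {w : InfinitePlace K // w ≠ w₀} with hr
  set S := (smallIdeals33 K (3 ^ n * D)).filter fun I => cls33 K I = c with hS
  obtain ⟨⟨J, hJ⟩, hJc⟩ := ClassGroup.mk0_surjective (R := 𝓞 K) c⁻¹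
  have hJ0 : J ≠ ⊥ := nonZeroDivisors.ne_zero hJ
  have hN0 : (0 : ℝ) < Ideal.absNorm J := by
    have : Ideal.absNorm J ≠ 0 := fun h => hJ0 (Ideal.absNorm_eq_zero_iff.mp h)
    exact_mod_cast Nat.pos_of_ne_zero this
  set gen : Ideal (𝓞 K) → 𝓞 K := fun I =>
    if h : ∃ β : 𝓞 K, Ideal.span {β} = J * I then h.choose else 1 with hgen
  set x : Ideal (𝓞 K) → logSpace K := fun I => lgp33 K J (gen I) with hx
  set b := basisUnitLattice K with hb
  have hfd := ZLattice.isAddFundamentalDomain (L := unitLattice K) b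
    (volume : Measure (logSpace K))
  set F := fundamentalDomain (b.ofZLatticeBasis ℝ) with hF
  have hreg : regulator K = (volume : Measure (logSpace K)).real F :=
    ZLattice.covolume_eq_measure_fundamentalDomain _ _ hfd
  -- the covering
  have hcov : F ⊆ ⋃ I ∈ S, ⋃ g : unitLattice K, (g +ᵥ Metric.closedBall (x I) ρ) := by
    intro y _
    obtain ⟨β, hβJ, hβ0, hβn, hβy⟩ := close33 K hn hJ0 y
    have h1 : J ∣ Ideal.span {β} := by
      rw [Ideal.dvd_iff_le, Ideal.span_singleton_le_iff_mem]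
      exact hβJ
    obtain ⟨I, hI⟩ := h1
    have hI0 : I ≠ ⊥ := by
      rintro rfl
      rw [Ideal.mul_bot, Ideal.span_singleton_eq_bot] at hI
      exact hβ0 hI
    have hInz : I ∈ (Ideal (𝓞 K))⁰ := mem_nonZeroDivisors_iff_ne_zero.mpr hI0
    have hcls : cls33 K I = c := by
      rw [cls33, dif_pos hInz]
      have h2 : ClassGroup.mk0 ((⟨J, hJ⟩ : (Ideal (𝓞 K))⁰) * ⟨I, hInz⟩) = 1 := by
        have hp : Submodule.IsPrincipal (J * I) := by
          rw [← hI]
          exact ⟨⟨β, rfl⟩⟩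
        exact (ClassGroup.mk0_eq_one_iff (Submonoid.mul_mem _ hJ hInz)).mpr hp
      rw [map_mul, hJc] at h2
      exact (inv_mul_eq_one.mp h2).symm
    have hIn : (Ideal.absNorm I : ℝ) ≤ 3 ^ n * D := by
      rw [hI, map_mul] at hβn
      push_cast at hβn
      rw [mul_comm (Ideal.absNorm J : ℝ)] at hβn
      exact le_of_mul_le_mul_right hβn hN0
    have hIS : I ∈ S := Finset.mem_filter.mpr ⟨mem_smallIdeals33 K hI0 hIn, hcls⟩
    have hex : ∃ β : 𝓞 K, Ideal.span {β} = J * I := ⟨β, hI⟩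
    have hg : Ideal.span {gen I} = J * I := by
      rw [hgen]
      simp only [dif_pos hex]
      exact hex.choose_spec
    have hass : Associated (gen I) β := by
      rw [← Ideal.span_singleton_eq_span_singleton, hg, hI]
    obtain ⟨u, hu⟩ := hass
    have hg0 : gen I ≠ 0 := by
      intro h
      rw [h, zero_mul] at hu
      exact hβ0 hu.symm
    have hlg : lgp33 K J β = logEmbedding K (Additive.ofMul u) + x I := by
      funext v
      rw [hx, Pi.add_apply, logEmbedding_component]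
      simp only [lgp33]
      have h3 : v.1 (β : K) = v.1 (gen I : K) * v.1 (u : K) := by
        rw [← map_mul, ← hu]
        rfl
      have h4 : v.1 (u : K) ≠ 0 := (map_ne_zero _).mpr (coe_ne_zero u)
      rw [h3, Real.log_mul (place_pos33 K hg0 v.1).ne' h4]
      ring
    rw [Set.mem_iUnion₂]
    refine ⟨I, hIS, Set.mem_iUnion.mpr ⟨⟨logEmbedding K (Additive.ofMul u),
      ⟨Additive.ofMul u, trivial, rfl⟩⟩, ?_⟩⟩
    rw [Set.mem_vadd_set]
    refine ⟨y - logEmbedding K (Additive.ofMul u), ?_, ?_⟩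
    · rw [Metric.mem_closedBall, dist_eq_norm] at hβy ⊢
      rw [hlg] at hβy
      have h5 : y - logEmbedding K (Additive.ofMul u) - x I =
          y - (logEmbedding K (Additive.ofMul u) + x I) := by abel
      rw [h5]
      exact hβy
    · change logEmbedding K (Additive.ofMul u) + (y - logEmbedding K (Additive.ofMul u)) = y
      abel
  have hball : ∀ I, (volume : Measure (logSpace K)) (Metric.closedBall (x I) ρ) =
      ENNReal.ofReal ((2 * ρ) ^ r) := fun I => Real.volume_pi_closedBall _ hρ0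
  have : VAddInvariantMeasure (unitLattice K) (logSpace K) volume :=
    (inferInstance : VAddInvariantMeasure (unitLattice K).toAddSubgroup (logSpace K) volume)
  have : MeasurableConstVAdd (unitLattice K) (logSpace K) :=
    (inferInstance : MeasurableConstVAdd (unitLattice K).toAddSubgroup (logSpace K))
  have hone : ∀ I ∈ S, volume (F ∩ ⋃ g : unitLattice K, (g +ᵥ Metric.closedBall (x I) ρ)) ≤
      ENNReal.ofReal ((2 * ρ) ^ r) := by
    intro I _
    rw [Set.inter_iUnion]
    refine (measure_iUnion_le _).trans ?_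
    rw [← hball I, hfd.measure_eq_tsum (Metric.closedBall (x I) ρ)]
    refine le_of_eq (tsum_congr fun g => ?_)
    rw [Set.inter_comm]
  have hvol : volume F ≤ ENNReal.ofReal (S.card * (2 * ρ) ^ r) := by
    calc volume F ≤ volume (⋃ I ∈ S, (F ∩ ⋃ g : unitLattice K,
          (g +ᵥ Metric.closedBall (x I) ρ))) := by
          refine measure_mono fun y hy => ?_
          have h := hcov hy
          rw [Set.mem_iUnion₂] at h ⊢
          obtain ⟨I, hI, h⟩ := h
          exact ⟨I, hI, hy, h⟩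
      _ ≤ ∑ I ∈ S, volume (F ∩ ⋃ g : unitLattice K, (g +ᵥ Metric.closedBall (x I) ρ)) :=
          measure_biUnion_finset_le _ _
      _ ≤ ∑ I ∈ S, ENNReal.ofReal ((2 * ρ) ^ r) := Finset.sum_le_sum hone
      _ = ENNReal.ofReal (S.card * (2 * ρ) ^ r) := by
          rw [Finset.sum_const, nsmul_eq_mul, ENNReal.ofReal_mul (by positivity),
            ENNReal.ofReal_natCast]
  rw [hreg, measureReal_def]
  exact ENNReal.toReal_le_of_le_ofReal (by positivity) hvol

end Reg

/-- The bound of Landau for the class number times the regulator. -/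
theorem hreg33 (n : ℕ) : ∃ C : ℝ, 1 ≤ C ∧ ∃ k : ℕ, ∀ (K : Type u) [Field K] [NumberField K],
    finrank ℚ K = n → (classNumber K : ℝ) * regulator K ≤ C * |(discr K : ℝ)| ^ k := by
  refine ⟨(3 ^ n) ^ (n * n + 1) * (6 * n + 1) ^ n, one_le_mul_of_one_le_of_one_le
    (one_le_pow₀ (one_le_pow₀ (by norm_num))) (one_le_pow₀ (by
      have : (0 : ℝ) ≤ n := Nat.cast_nonneg _
      linarith)), n * n + 1 + n, fun K _ _ hn => ?_⟩
  have hn0 : 0 < n := hn ▸ finrank_pos
  have hn1 : (1 : ℝ) ≤ n := by exact_mod_cast hn0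
  have hd := one_le_sqrt_discr33 K
  have hd1 : 1 ≤ |(discr K : ℝ)| := by
    have h : (1 : ℤ) ≤ |discr K| := Int.one_le_abs (discr_ne_zero K)
    exact_mod_cast h
  have hdd : Real.sqrt |(discr K : ℝ)| ≤ |(discr K : ℝ)| := by
    rw [Real.sqrt_le_left (abs_nonneg _)]
    nlinarith
  have hcls := fun c => reg_le33 K hn c
  set D : ℝ := Real.sqrt |(discr K : ℝ)| with hD
  set Δ : ℝ := |(discr K : ℝ)| with hΔ
  have hlD : 0 ≤ Real.log D := Real.log_nonneg hd
  have hl3 : 0 < Real.log 3 := Real.log_pos (by norm_num)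
  have hl3' : Real.log 3 ≤ 2 := by
    have := Real.log_le_sub_one_of_pos (show (0 : ℝ) < 3 by norm_num)
    linarith
  have hlD' : Real.log D ≤ D - 1 := Real.log_le_sub_one_of_pos (by linarith)
  set r : ℕ := Fintype.card {w : InfinitePlace K // w ≠ w₀} with hr
  have hrn : r ≤ n := by
    have h1 : r ≤ Fintype.card (InfinitePlace K) := Fintype.card_subtype_le _
    have h2 : Fintype.card (InfinitePlace K) ≤ n := by
      rw [← hn, ← InfinitePlace.sum_mult_eq (K := K), Fintype.card, Finset.card_eq_sum_ones]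
      exact Finset.sum_le_sum fun w _ => InfinitePlace.mult_pos
    omega
  set B : ℝ := (2 * (n * (Real.log 3 + Real.log D))) ^ r with hB
  have hB0 : 0 ≤ B := by positivity
  have hBle : B ≤ ((6 * n + 1) * Δ) ^ n := by
    have h1 : 2 * (n * (Real.log 3 + Real.log D)) ≤ (6 * n + 1) * Δ := by nlinarith
    have h2 : 1 ≤ (6 * n + 1) * Δ := by nlinarith
    calc B ≤ ((6 * n + 1) * Δ) ^ r := pow_le_pow_left₀ (by positivity) h1 _
      _ ≤ _ := pow_le_pow_right₀ h2 hrn
  set A := smallIdeals33 K (3 ^ n * D) with hA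
  have hAcard : (A.card : ℝ) ≤ (3 ^ n * Δ) ^ (n * n + 1) := by
    have h1 := card_smallIdeals33 K (X := 3 ^ n * D) (by positivity)
    rw [hn] at h1
    refine h1.trans ?_
    gcongr
  calc (classNumber K : ℝ) * regulator K = ∑ c : ClassGroup (𝓞 K), regulator K := by
        rw [Finset.sum_const, nsmul_eq_mul, Finset.card_univ]
        rfl
    _ ≤ ∑ c : ClassGroup (𝓞 K), ((A.filter fun I => cls33 K I = c).card : ℝ) * B :=
        Finset.sum_le_sum fun c _ => hcls c
    _ = (A.card : ℝ) * B := by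
        rw [← Finset.sum_mul, ← Nat.cast_sum,
          ← Finset.card_eq_sum_card_fiberwise (f := cls33 K) (t := Finset.univ)
            (fun I _ => Finset.mem_coe.mpr (Finset.mem_univ _))]
    _ ≤ (3 ^ n * Δ) ^ (n * n + 1) * ((6 * n + 1) * Δ) ^ n := by gcongr
    _ = _ := by
        rw [mul_pow, mul_pow, pow_add]
        ring

end Pool.Agent.Lib.MP_bf61d2_nt.Artin.Ray
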